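import Pool.Agent.H61.AR.Targets
import Pool.Agent.H90.CM.PB2

/-!
MP_d9d403_gt, board arq_modules, row LB1: the bracket in a half box.
-/

set_option autoImplicit false

open Set Function MeasureTheory Filter Topology
open scoped Manifold ContDiff Matrix

namespace Pool.Agent.H76.AR

open Pool.Agent.H60.CM Pool.Agent.H61.AR Pool.Agent.H90.CM

lemma convex_Qi (a : ℝ) : Convex ℝ (Qi a) := by
  intro y hy z hz s t hs ht hst
  obtain ⟨y1, y2, y3⟩ := hy
  obtain ⟨z1, z2, z3⟩ := hz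
  rw [abs_lt] at y3 z3
  have e0 : (s • y + t • z) 0 = s * y 0 + t * z 0 := by simp
  have e1 : (s • y + t • z) 1 = s * y 1 + t * z 1 := by simp
  have hconv : ∀ u v lo hi : ℝ, lo < u → lo < v → u < hi → v < hi →
      lo < s * u + t * v ∧ s * u + t * v < hi := by
    intro u v lo hi q1 q2 q3 q4
    rcases hs.eq_or_lt with h | h
    · subst h
      have : t = 1 := by linarith
      subst this
      constructor <;> linarith
    · have r1 : s * (u - lo) > 0 := mul_pos h (by linarith)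
      have r2 : t * (v - lo) ≥ 0 := mul_nonneg ht (by linarith)
      have r3 : s * (hi - u) > 0 := mul_pos h (by linarith)
      have r4 : t * (hi - v) ≥ 0 := mul_nonneg ht (by linarith)
      have e : t = 1 - s := by linarith
      subst e
      constructor <;> nlinarith
  refine ⟨?_, ?_, ?_⟩
  · rw [e0]
    exact (hconv _ _ 0 a y1 z1 y2 z2).1
  · rw [e0]
    exact (hconv _ _ 0 a y1 z1 y2 z2).2
  · rw [e1, abs_lt]
    exact hconv _ _ (-a) a y3.1 z3.1 y3.2 z3.2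

/-- a continuous function without zero on a preconnected set has a constant sign -/
lemma sign_const {O : Set E2} (hO : IsPreconnected O) {t : E2 → ℝ} (ht : ContinuousOn t O)
    (h0 : ∀ y ∈ O, t y ≠ 0) : ∃ κ : ℝ, (κ = 1 ∨ κ = -1) ∧ ∀ y ∈ O, |t y| / t y = κ := by
  by_cases h : ∃ y ∈ O, 0 < t y
  · obtain ⟨y, hy, hpos⟩ := h
    refine ⟨1, Or.inl rfl, fun z hz => ?_⟩
    have hz0 : 0 < t z := by
      by_contra hneg
      have hneg' : t z ≤ 0 := not_lt.1 hneg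
      obtain ⟨w, hw, hw0⟩ := hO.intermediate_value hz hy ht ⟨hneg', hpos.le⟩
      exact h0 w hw hw0
    rw [abs_of_pos hz0, div_self hz0.ne']
  · refine ⟨-1, Or.inr rfl, fun z hz => ?_⟩
    have hz0 : t z < 0 := by
      rcases lt_trichotomy (t z) 0 with h' | h' | h'
      · exact h'
      · exact absurd h' (h0 z hz)
      · exact absurd ⟨z, hz, h'⟩ h
    rw [abs_of_neg hz0, neg_div, div_self hz0.ne]

theorem pf_LB1 (h1 : T_ARE) (h2 : T_PGR) (h3 : T_PDF) (h4 : T_CON) : T_LB1 := by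
  intro D a ψ hb
  have hψ := hb.int
  have hO := hψ.isOpen
  -- smoothness in the parametrization
  have hsm : ∀ {F : Type} [NormedAddCommGroup F] [NormedSpace ℝ F] (f : D.S → F), D.Sm f →
      ContDiffOn ℝ ∞ (f ∘ ψ) (Qi a) := by
    intro F _ _ f hf y hy
    obtain ⟨_, _, _, _, _, h⟩ := h3 D (Qi a) ψ hψ y hy
    exact (h F f hf).1 y hy
  set X : E2 → V3 := D.x ∘ ψ with hX
  have hXs : ContDiffOn ℝ ∞ X (Qi a) := hsm _ D.smx
  have hNs : ContDiffOn ℝ ∞ (D.N ∘ ψ) (Qi a) := hsm _ D.smN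
  have hXi : ∀ (i : Fin 2) (j : Fin 3), ContDiffOn ℝ ∞ (fun y => pd X y i j) (Qi a) :=
    fun i j => contDiffOn_pi.1 (pd_smooth hO hXs i) j
  have hNj : ∀ j : Fin 3, ContDiffOn ℝ ∞ (fun y => D.N (ψ y) j) (Qi a) := fun j =>
    contDiffOn_pi.1 hNs j
  set t : E2 → ℝ := fun y => (pd X y 0 ⨯₃ pd X y 1) ⬝ᵥ D.N (ψ y) with ht
  have hts : ContDiffOn ℝ ∞ t (Qi a) := by
    have e : t = fun y => (pd X y 0 1 * pd X y 1 2 - pd X y 0 2 * pd X y 1 1) * D.N (ψ y) 0 +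
        (pd X y 0 2 * pd X y 1 0 - pd X y 0 0 * pd X y 1 2) * D.N (ψ y) 1 +
        (pd X y 0 0 * pd X y 1 1 - pd X y 0 1 * pd X y 1 0) * D.N (ψ y) 2 := by
      funext y
      simp only [ht, Matrix.vec3_dotProduct, cross_apply, Matrix.cons_val_zero,
        Matrix.cons_val_one, Matrix.cons_val]
    rw [e]
    exact (((((hXi 0 1).mul (hXi 1 2)).sub ((hXi 0 2).mul (hXi 1 1))).mul (hNj 0)).add
      ((((hXi 0 2).mul (hXi 1 0)).sub ((hXi 0 0).mul (hXi 1 2))).mul (hNj 1))).add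
      ((((hXi 0 0).mul (hXi 1 1)).sub ((hXi 0 1).mul (hXi 1 0))).mul (hNj 2))
  -- the normal
  have hN0 : ∀ y ∈ Qi a, ∀ i : Fin 2, D.N (ψ y) ⬝ᵥ pd X y i = 0 := by
    intro y hy i
    obtain ⟨m00, m01, m10, m11, _, h⟩ := h3 D (Qi a) ψ hψ y hy
    obtain ⟨_, q0, q1⟩ := h V3 D.x D.smx
    have hn := D.cmc.normal (ψ y)
    fin_cases i
    · show D.N (ψ y) ⬝ᵥ pd X y 0 = 0
      rw [hX, q0, dotProduct_add, dotProduct_smul, dotProduct_smul, hn, hn, smul_zero, smul_zero,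
        add_zero]
    · show D.N (ψ y) ⬝ᵥ pd X y 1 = 0
      rw [hX, q1, dotProduct_add, dotProduct_smul, dotProduct_smul, hn, hn, smul_zero, smul_zero,
        add_zero]
  have hsq : ∀ y ∈ Qi a, (pd X y 0 ⨯₃ pd X y 1) ⬝ᵥ (pd X y 0 ⨯₃ pd X y 1) = t y ^ 2 :=
    fun y hy => sq_cross (D.cmc.unit _) (hN0 y hy 0) (hN0 y hy 1)
  have ht0 : ∀ y ∈ Qi a, t y ≠ 0 := by
    intro y hy h0
    have q := hsq y hy
    rw [h0] at q
    exact hψ.imm y hy (dotProduct_self_eq_zero.1 (by rw [q]; norm_num))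
  have haw : ∀ y ∈ Qi a, aw X y = |t y| := by
    intro y hy
    unfold aw
    rw [hsq y hy, Real.sqrt_sq_eq_abs]
  obtain ⟨κ, hκ, hsgn⟩ := sign_const (convex_Qi a).isPreconnected hts.continuousOn ht0
  refine ⟨κ, hκ, fun f b hf hbs hsupp => ?_⟩
  have hBc : Continuous (br D.x D.N f b) := (h4 D f b hf hbs).2
  have e1 : ∫ p in D.int, br D.x D.N f b p ∂D.μ = ∫ p in ψ '' Qi a, br D.x D.N f b p ∂D.μ := by
    refine setIntegral_eq_of_subset_of_forall_diff_eq_zero D.int_open.measurableSet hψ.int ?_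
    rintro p ⟨hp, hp'⟩
    refine br_zero fun h => hp' ?_
    obtain ⟨y, hy, rfl⟩ := hsupp h
    rcases hy.1.eq_or_lt with h0 | h0
    · exact absurd (hb.bd y hy h0.symm) fun hbd => D.not_int.2 hbd hp
    · exact ⟨y, ⟨h0, hy.2.1, hy.2.2⟩, rfl⟩
  rw [e1, h1 D (Qi a) ψ hψ _ hBc.measurable, ← integral_const_mul]
  refine setIntegral_congr_fun hO.measurableSet fun y hy => ?_
  show br D.x D.N f b (ψ y) * aw X y = _
  rw [(h2 D (Qi a) ψ hψ y hy f b hf hbs).2, haw y hy]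
  have hbrk : brk (pd (D.x ∘ ψ) y 0) (pd (D.x ∘ ψ) y 1) (D.N (ψ y)) (pd (f ∘ ψ) y 0)
      (pd (f ∘ ψ) y 1) (pd (b ∘ ψ) y 0) (pd (b ∘ ψ) y 1) =
      (pd (f ∘ ψ) y 0 * pd (b ∘ ψ) y 1 - pd (f ∘ ψ) y 1 * pd (b ∘ ψ) y 0) / t y := rfl
  rw [hbrk, ← hsgn y hy]
  ring

end Pool.Agent.H76.AR
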